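import Pool.Agent.W259.GP.Main
import Pool.Agent.W259.GP.Fin

/-! MP_2cd45e_co: an upper bound for the Hermite constant: `limsup γ_d / d ≤ 1 / π ^ 2`. -/

open Filter

namespace Pool.Agent.Results.MP_2cd45e_co.HermitePiSquared

/-- The Hermite constant: the supremum over the lattices `A ℤᵈ` (`det A ≠ 0`) of the least squared
length of a nonzero lattice vector divided by `|det A| ^ (2 / d)`. -/
noncomputable def gam (d : ℕ) : ℝ :=
  ⨆ A : {A : Matrix (Fin d) (Fin d) ℝ // A.det ≠ 0},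
    (⨅ w : {w : Fin d → ℤ // w ≠ 0}, ∑ i, (Matrix.mulVec A.1 (fun j => (w.1 j : ℝ))) i ^ 2)
      / |A.1.det| ^ ((2 : ℝ) / (d : ℝ))

theorem result :
    limsup (fun d : ℕ => gam d / d) atTop ≤ 1 / Real.pi ^ 2 ∧
    ∀ ε : ℝ, 0 < ε → ∀ᶠ d : ℕ in atTop, gam d / d ≤ 1 / Real.pi ^ 2 + ε :=
  ⟨Pool.Agent.W259.GP.limsup_hermite Pool.Agent.W259.GP.s_main,
    Pool.Agent.W259.GP.hermite_bound Pool.Agent.W259.GP.s_main⟩

end Pool.Agent.Results.MP_2cd45e_co.HermitePiSquared
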